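import Mathlib
import Pool.Agent.Lib.MP_264cca_an.MainQ2

open Set Topology Metric Pool.Agent.Lib.MP_264cca_an

namespace Pool.Agent.Results.MP_264cca_an.PartNotUnique

/-- **Negative answer to Q2.**  There is a point `m` of the maximal ideal space of `H^∞(𝔻)` whose
Gleason part is trivial and that lies in the Shilov boundary `∂P` of `H^∞|_P` for uncountably many
nontrivial Gleason parts `P`. -/
theorem result :
    ∃ m : MaxSpace (ball (0 : ℂ) 1), part m = {m} ∧
      ¬ {P : Set (MaxSpace (ball (0 : ℂ) 1)) | IsNontrivialPart P ∧ m ∈ shilov P}.Countable :=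
  main_disc2

end Pool.Agent.Results.MP_264cca_an.PartNotUnique
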